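import Pool.Agent.W96.CL.Stm
import Pool.Agent.H906R3.K6.A1
import Pool.Agent.Helper242.RK.Log

set_option autoImplicit false

/-! Representation of a zero-free function in the strip. -/

namespace W96CL
open MeasureTheory Filter Topology Complex Set H906K

theorem st_kk (l : ℝ) : W96CL.kk l = H906K.kk l := rfl

theorem st_normSq_cosh (x y : ℝ) :
    Complex.normSq (Complex.cosh (x + y * I)) = Real.sinh x ^ 2 + Real.cos y ^ 2 := by
  have h1 : Complex.cosh (x + y * I) = (Real.cosh x * Real.cos y : ℝ)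
      + (Real.sinh x * Real.sin y : ℝ) * I := by
    rw [Complex.cosh_add, Complex.sinh_mul_I, Complex.cosh_mul_I]
    push_cast
    ring
  rw [h1, Complex.normSq_add_mul_I]
  have h4 := Real.cosh_sq x
  have h5 := Real.sin_sq_add_cos_sq y
  rw [mul_pow, mul_pow, h4]
  linear_combination (Real.sinh x) ^ 2 * h5

theorem st_norm_cosh (x y : ℝ) (_hy : 0 ≤ Real.cos y) :
    Real.cosh x * Real.cos y ≤ ‖Complex.cosh (x + y * I)‖ := by
  have h3 : (Real.cosh x * Real.cos y) ^ 2 ≤ Complex.normSq (Complex.cosh (x + y * I)) := by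
    rw [st_normSq_cosh, mul_pow, Real.cosh_sq]
    have h5 := Real.sin_sq_add_cos_sq y
    nlinarith [mul_nonneg (sq_nonneg (Real.sinh x)) (sq_nonneg (Real.sin y))]
  rw [← Complex.sq_norm] at h3
  exact abs_le_of_sq_le_sq' h3 (norm_nonneg _) |>.2

theorem st_arg (l w : ℂ) :
    3 * (l - w) / 2 = ((3 * (l.re - w.re) / 2 : ℝ) : ℂ)
      + ((3 * (l.im - w.im) / 2 : ℝ) : ℂ) * I := by
  conv_lhs => rw [← re_add_im w, ← re_add_im l]
  push_cast
  ring

theorem st_arg' (z : ℂ) :
    3 * z / 2 = ((3 * z.re / 2 : ℝ) : ℂ) + ((3 * z.im / 2 : ℝ) : ℂ) * I := by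
  conv_lhs => rw [← re_add_im z]
  push_cast
  ring

theorem st_cos_pos {y : ℝ} (hy : |y| < Real.pi / 3) : 0 < Real.cos (3 * y / 2) := by
  have h := abs_lt.mp hy
  exact Real.cos_pos_of_mem_Ioo ⟨by linarith, by linarith⟩

theorem st_kc_le (z : ℂ) (hz : |z.im| < Real.pi / 3) :
    ‖kc z‖ ≤ H906K.kk z.re / Real.cos (3 * z.im / 2) := by
  have hpi := Real.pi_pos
  have h1 := st_cos_pos hz
  have h2 := Real.cosh_pos (3 * z.re / 2)
  unfold kc H906K.kk
  rw [st_arg' z, norm_div, norm_mul, norm_mul, Complex.norm_real, Real.norm_of_nonneg hpi.le]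
  have h3 := st_norm_cosh (3 * z.re / 2) (3 * z.im / 2) h1.le
  have h4 : ‖(3 : ℂ)‖ = 3 := by norm_num
  have h5 : ‖(4 : ℂ)‖ = 4 := by norm_num
  rw [h4, h5, div_div]
  refine div_le_div_of_nonneg_left (by norm_num) (by positivity) ?_
  rw [mul_assoc]
  exact mul_le_mul_of_nonneg_left h3 (by positivity)

theorem st_cosh_ne (z : ℂ) (hz : |z.im| < Real.pi / 3) : Complex.cosh (3 * z / 2) ≠ 0 := by
  have h1 := st_cos_pos hz
  have h2 := Real.cosh_pos (3 * z.re / 2)
  rw [st_arg' z]
  have h3 := st_norm_cosh (3 * z.re / 2) (3 * z.im / 2) h1.le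
  intro h
  rw [h, norm_zero] at h3
  have : 0 < Real.cosh (3 * z.re / 2) * Real.cos (3 * z.im / 2) := by positivity
  linarith

theorem st_kc_diff (z : ℂ) (hz : |z.im| < Real.pi / 3) : DifferentiableAt ℂ kc z := by
  have hpi : (Real.pi : ℂ) ≠ 0 := by exact_mod_cast Real.pi_pos.ne'
  unfold kc
  refine DifferentiableAt.div (differentiableAt_const _) (by fun_prop) ?_
  exact mul_ne_zero (mul_ne_zero (by norm_num) hpi) (st_cosh_ne z hz)

theorem st_kc_real (u : ℝ) : kc u = ((H906K.kk u : ℝ) : ℂ) := by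
  unfold kc H906K.kk
  push_cast
  rfl

theorem st_kk_bound (t : ℝ) : H906K.kk t ≤ 3 / (2 * Real.pi) * Real.exp (-|t|) := by
  have := a1_kk_le t 0
  simpa using this

theorem st_exp_top (C : ℝ) : Tendsto (fun t : ℝ => C * Real.exp (-|t|)) atTop (𝓝 0) := by
  have := u2_exp_top.const_mul C
  simpa using this

theorem st_exp_bot (C : ℝ) : Tendsto (fun t : ℝ => C * Real.exp (-|t|)) atBot (𝓝 0) := by
  have := u2_exp_bot.const_mul C
  simpa using this

theorem st_line (y : ℝ) (hy : |y| < Real.pi / 3) :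
    ∫ t : ℝ, kc (t + y * I) = ∫ t : ℝ, kc t := by
  have hpi := Real.pi_pos
  have hm := st_cos_pos (y := |y|) (by rwa [abs_abs])
  set C : ℝ := 3 / (2 * Real.pi) / Real.cos (3 * |y| / 2) with hC
  have hC0 : 0 < C := by positivity
  have hB : Integrable (fun t : ℝ => C * Real.exp (-|t|)) := u2_exp_int.const_mul C
  have key : ∀ t v : ℝ, |v| ≤ |y| → ‖kc (t + v * I)‖ ≤ C * Real.exp (-|t|) := by
    intro t v hv
    have h0 : ((t : ℂ) + v * I).im = v := by simp
    have h0' : ((t : ℂ) + v * I).re = t := by simp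
    have h1 := st_kc_le (t + v * I) (by rw [h0]; exact hv.trans_lt hy)
    rw [h0, h0'] at h1
    refine h1.trans ?_
    have h2 : Real.cos (3 * |y| / 2) ≤ Real.cos (3 * v / 2) := by
      rw [← Real.cos_abs (3 * v / 2)]
      have h3 : |3 * v / 2| = 3 * |v| / 2 := by
        rw [abs_div, abs_mul]; norm_num
      rw [h3]
      refine Real.cos_le_cos_of_nonneg_of_le_pi (by positivity) ?_ (by linarith)
      have := hy.le
      linarith
    have h3 := st_kk_bound t
    have h4 := Real.exp_pos (-|t|)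
    calc H906K.kk t / Real.cos (3 * v / 2) ≤ (3 / (2 * Real.pi) * Real.exp (-|t|)) / Real.cos (3 * v / 2) := by
          exact div_le_div_of_nonneg_right h3 (hm.le.trans h2)
      _ ≤ (3 / (2 * Real.pi) * Real.exp (-|t|)) / Real.cos (3 * |y| / 2) := by
          exact div_le_div_of_nonneg_left (by positivity) hm h2
      _ = C * Real.exp (-|t|) := by rw [hC]; ring
  have hd : ∀ t v : ℝ, |v| ≤ |y| → DifferentiableAt ℂ kc (t + v * I) := by
    intro t v hv
    refine st_kc_diff _ ?_
    have h0 : ((t : ℂ) + v * I).im = v := by simp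
    rw [h0]
    exact hv.trans_lt hy
  rcases le_total 0 y with h | h
  · have := u2_strip kc 0 y h _ hB (st_exp_top C) (st_exp_bot C)
      (fun t v h1 h2 => hd t v (by rw [abs_of_nonneg h1, abs_of_nonneg h]; exact h2))
      (fun t v h1 h2 => key t v (by rw [abs_of_nonneg h1, abs_of_nonneg h]; exact h2))
    simpa using this.symm
  · have := u2_strip kc y 0 h _ hB (st_exp_top C) (st_exp_bot C)
      (fun t v h1 h2 => hd t v (by rw [abs_of_nonpos h2, abs_of_nonpos h]; linarith))
      (fun t v h1 h2 => key t v (by rw [abs_of_nonpos h2, abs_of_nonpos h]; linarith))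
    simpa using this

theorem st_kc_integral (z : ℂ) (hz : |z.im| < Real.pi / 3) : ∫ v : ℝ, kc (z - v) = 1 / 2 := by
  have h1 : ∀ v : ℝ, kc (z - v) = (fun t : ℝ => kc (t + z.im * I)) (z.re - v) := by
    intro v
    simp only
    congr 1
    conv_lhs => rw [← re_add_im z]
    push_cast
    ring
  simp_rw [h1]
  rw [integral_sub_left_eq_self (fun t : ℝ => kc (t + z.im * I)) volume z.re, st_line _ hz]
  simp_rw [st_kc_real]
  have h0 : ∫ t : ℝ, ((H906K.kk t : ℝ) : ℂ) = ((∫ t : ℝ, H906K.kk t : ℝ) : ℂ) := integral_ofReal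
  rw [h0]
  have h2 := a1_kk_integral 0
  have h3 : ∀ u : ℝ, H906K.kk (0 - u) = H906K.kk u := by
    intro u
    unfold H906K.kk
    rw [show 3 * (0 - u) / 2 = -(3 * u / 2) by ring, Real.cosh_neg]
  simp_rw [h3] at h2
  rw [h2]
  norm_num

theorem st_kc_int (z : ℂ) (hz : |z.im| < Real.pi / 3) (g : ℝ → ℂ) (hg : Continuous g) (B : ℝ)
    (hB : ∀ v, ‖g v‖ ≤ B) : Integrable (fun v : ℝ => kc (z - v) * g v) := by
  have hc := st_cos_pos hz
  refine (((a1_kk_int z.re).div_const (Real.cos (3 * z.im / 2))).mul_const B).mono' ?_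
    (Eventually.of_forall fun v => ?_)
  · have h1 : Continuous (fun v : ℝ => kc (z - v)) := by
      rw [continuous_iff_continuousAt]
      intro v
      refine ContinuousAt.comp (f := fun v : ℝ => z - (v : ℂ)) (st_kc_diff _ ?_).continuousAt ?_
      · simpa using hz
      · fun_prop
    exact (h1.mul hg).aestronglyMeasurable
  · rw [norm_mul]
    have h1 := st_kc_le (z - v) (by simpa using hz)
    simp only [sub_re, ofReal_re, sub_im, ofReal_im, sub_zero] at h1
    have h2 : 0 ≤ H906K.kk (z.re - v) / Real.cos (3 * z.im / 2) := (norm_nonneg _).trans h1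
    exact mul_le_mul h1 (hB v) (norm_nonneg _) h2

/-- the case `h l = 0` (complex `l`; adapted from `H906K.a1_zero`) -/
theorem st_zero (h : ℂ → ℂ) (K : ℝ)
    (hf : ∀ z : ℂ, |z.im| ≤ Real.pi / 3 → DifferentiableAt ℂ h z)
    (hb : ∀ z : ℂ, |z.im| ≤ Real.pi / 3 → ‖h z‖ ≤ K) (l : ℂ) (hlim : |l.im| < Real.pi / 3)
    (hl : h l = 0) :
    ∫ u : ℝ, kc (l - u) * (h (u + Real.pi / 3 * I) + h (u - Real.pi / 3 * I)) = 0 := by
  have hpi := Real.pi_pos
  set s : ℂ → ℂ := fun w => Complex.sinh (3 * (l - w) / 2) with hs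
  have hsd : Differentiable ℂ s := by
    intro w
    simp only [hs]
    fun_prop
  have hs0 : s l = 0 := by simp [hs]
  have hsder : HasDerivAt s (-(3 / 2)) l := by
    have h1 : HasDerivAt (fun w : ℂ => 3 * (l - w) / 2) (-(3 / 2)) l := by
      have := (((hasDerivAt_id l).const_sub l).const_mul 3).div_const 2
      refine this.congr_deriv ?_
      ring
    have h2 := h1.csinh
    refine h2.congr_deriv ?_
    simp
  -- sinh does not vanish in the strip except at `l`
  have hsne : ∀ w : ℂ, |w.im| ≤ Real.pi / 3 → w ≠ l → s w ≠ 0 := by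
    intro w hw hwl hsw
    simp only [hs] at hsw
    rw [st_arg] at hsw
    have h1 := a1_normSq_sinh (3 * (l.re - w.re) / 2) (3 * (l.im - w.im) / 2)
    rw [hsw, Complex.normSq_zero] at h1
    have h2 : Real.sinh (3 * (l.re - w.re) / 2) = 0 := by
      have := sq_nonneg (Real.sin (3 * (l.im - w.im) / 2))
      have := sq_nonneg (Real.sinh (3 * (l.re - w.re) / 2))
      exact pow_eq_zero_iff (two_ne_zero) |>.mp (by linarith)
    have h3 : Real.sin (3 * (l.im - w.im) / 2) = 0 := by
      have := sq_nonneg (Real.sin (3 * (l.im - w.im) / 2))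
      have := sq_nonneg (Real.sinh (3 * (l.re - w.re) / 2))
      exact pow_eq_zero_iff (two_ne_zero) |>.mp (by linarith)
    rw [Real.sinh_eq_zero] at h2
    have hw2 := abs_le.mp hw
    have hl2 := abs_lt.mp hlim
    have h4 : 3 * (l.im - w.im) / 2 = 0 := by
      refine (Real.sin_eq_zero_iff_of_lt_of_lt ?_ ?_).mp h3
      · linarith
      · linarith
    apply hwl
    apply Complex.ext
    · linarith
    · linarith
  set G : ℂ → ℂ := fun w => dslope h l w / dslope s l w with hG
  have hφ : ∀ w : ℂ, |w.im| ≤ Real.pi / 3 → dslope s l w ≠ 0 := by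
    intro w hw
    by_cases hwl : w = l
    · rw [hwl, dslope_same, hsder.deriv]
      norm_num
    · rw [dslope_of_ne _ hwl, slope_def_field, hs0, sub_zero]
      exact div_ne_zero (hsne w hw hwl) (sub_ne_zero.mpr hwl)
  have hGne : ∀ w : ℂ, |w.im| ≤ Real.pi / 3 → w ≠ l → G w = h w / s w := by
    intro w hw hwl
    have h1 := hsne w hw hwl
    have h2 := sub_ne_zero.mpr hwl
    simp only [hG]
    rw [dslope_of_ne _ hwl, dslope_of_ne _ hwl, slope_def_field, slope_def_field, hs0, hl,
      sub_zero, sub_zero]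
    field_simp
  have hS : {z : ℂ | |z.im| ≤ Real.pi / 3} ∈ 𝓝 l := by
    have h1 : {z : ℂ | |z.im| < Real.pi / 3} ∈ 𝓝 l := by
      refine IsOpen.mem_nhds ?_ ?_
      · exact isOpen_lt (by fun_prop) continuous_const
      · exact hlim
    refine Filter.mem_of_superset h1 ?_
    intro z hz
    have hz' : |z.im| < Real.pi / 3 := hz
    exact hz'.le
  have hdG : ∀ w : ℂ, |w.im| ≤ Real.pi / 3 → DifferentiableAt ℂ G w := by
    intro w hw
    have h1 : DifferentiableAt ℂ (dslope h l) w := by
      by_cases hwl : w = l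
      · have h2 : DifferentiableOn ℂ h {z : ℂ | |z.im| ≤ Real.pi / 3} :=
          fun z hz => (hf z hz).differentiableWithinAt
        have h3 := (Complex.differentiableOn_dslope hS).mpr h2
        rw [hwl]
        exact h3.differentiableAt hS
      · exact (differentiableAt_dslope_of_ne hwl).mpr (hf w hw)
    have h4 : DifferentiableAt ℂ (dslope s l) w := by
      have h5 := (Complex.differentiableOn_dslope (Filter.univ_mem (f := 𝓝 l))).mpr
        hsd.differentiableOn
      exact h5.differentiableAt Filter.univ_mem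
    exact h1.div h4 (hφ w hw)
  -- bounds
  have hK : 0 ≤ K := (norm_nonneg _).trans (hb 0 (by simp; positivity))
  obtain ⟨M, hM⟩ : ∃ M, ∀ w ∈ (Icc (l.re - 1) (l.re + 1)) ×ℂ (Icc (-(Real.pi / 3)) (Real.pi / 3)),
      ‖G w‖ ≤ M := by
    have hc : IsCompact ((Icc (l.re - 1) (l.re + 1)) ×ℂ (Icc (-(Real.pi / 3)) (Real.pi / 3))) :=
      isCompact_Icc.reProdIm isCompact_Icc
    refine hc.exists_bound_of_continuousOn ?_
    intro w hw
    rw [mem_reProdIm] at hw
    exact (hdG w (abs_le.mpr hw.2)).continuousAt.continuousWithinAt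
  have hM0 : 0 ≤ M := (norm_nonneg _).trans (hM l (by
    rw [mem_reProdIm]
    exact ⟨⟨by linarith, by linarith⟩, abs_le.mp hlim.le⟩))
  have hBd : ∀ t y : ℝ, -(Real.pi / 3) ≤ y → y ≤ Real.pi / 3 →
      ‖G (t + y * I)‖ ≤ (8 * K + M * Real.exp 1) * Real.exp (-|t - l.re|) := by
    intro t y h1 h2
    have him : |((t : ℂ) + y * I).im| ≤ Real.pi / 3 := by
      simpa [abs_le] using ⟨h1, h2⟩
    have he := Real.exp_pos (-|t - l.re|)
    by_cases ht : |t - l.re| ≤ 1
    · have h3 := hM (t + y * I) (by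
        rw [mem_reProdIm]
        have := abs_le.mp ht
        simp only [add_re, ofReal_re, mul_re, I_re, mul_zero, ofReal_im, I_im, mul_one, sub_self,
          add_zero, add_im, mul_im, zero_add]
        exact ⟨⟨by linarith, by linarith⟩, ⟨h1, h2⟩⟩)
      have h4 : 1 ≤ Real.exp 1 * Real.exp (-|t - l.re|) := by
        rw [← Real.exp_add]
        exact Real.one_le_exp (by linarith)
      calc ‖G (t + y * I)‖ ≤ M * 1 := by rw [mul_one]; exact h3
        _ ≤ M * (Real.exp 1 * Real.exp (-|t - l.re|)) := mul_le_mul_of_nonneg_left h4 hM0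
        _ ≤ (8 * K + M * Real.exp 1) * Real.exp (-|t - l.re|) := by
          nlinarith [mul_nonneg hK he.le]
    · push Not at ht
      have hne : (t : ℂ) + y * I ≠ l := by
        intro h
        have := congrArg Complex.re h
        simp at this
        rw [this] at ht
        simp at ht
        linarith
      rw [hGne _ him hne, norm_div]
      have h5 : Real.exp |t - l.re| / 4 ≤ ‖s (t + y * I)‖ := by
        simp only [hs]
        rw [st_arg]
        refine le_trans ?_ (a1_norm_sinh _ _)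
        have h6 : ((t : ℂ) + y * I).re = t := by simp
        rw [h6, Real.abs_sinh, Real.sinh_eq]
        have h7 : |t - l.re| ≤ |3 * (l.re - t) / 2| := by
          rw [abs_div, abs_mul, abs_sub_comm t l.re]
          have := abs_nonneg (l.re - t)
          norm_num
          linarith
        have h8 := Real.exp_le_exp.mpr h7
        have h9 : Real.exp (-|3 * (l.re - t) / 2|) ≤ 1 / 2 * Real.exp |t - l.re| := by
          have h10 : Real.exp (-|3 * (l.re - t) / 2|) ≤ 1 := Real.exp_le_one_iff.mpr (by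
            have := abs_nonneg (3 * (l.re - t) / 2); linarith)
          have h11 : 1 + 1 ≤ Real.exp |t - l.re| := by
            have := Real.add_one_le_exp (|t - l.re|)
            linarith
          linarith
        linarith
      have h6 : 0 < Real.exp |t - l.re| := Real.exp_pos _
      rw [div_le_iff₀ (lt_of_lt_of_le (by positivity) h5)]
      have h7 : Real.exp (-|t - l.re|) * Real.exp |t - l.re| = 1 := by
        rw [← Real.exp_add]; simp
      calc ‖h (t + y * I)‖ ≤ K := hb _ him
        _ ≤ (8 * K + M * Real.exp 1) * Real.exp (-|t - l.re|) * (Real.exp |t - l.re| / 4) := by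
          have : (8 * K + M * Real.exp 1) * Real.exp (-|t - l.re|) * (Real.exp |t - l.re| / 4)
            = (8 * K + M * Real.exp 1) / 4 * (Real.exp (-|t - l.re|) * Real.exp |t - l.re|) := by
            ring
          rw [this, h7]
          nlinarith [mul_nonneg hM0 (Real.exp_pos 1).le]
        _ ≤ _ := mul_le_mul_of_nonneg_left h5 (by positivity)
  have hBi : Integrable (fun t : ℝ => (8 * K + M * Real.exp 1) * Real.exp (-|t - l.re|)) :=
    (a1_int_abs l.re).const_mul _
  have htop : Tendsto (fun t : ℝ => (8 * K + M * Real.exp 1) * Real.exp (-|t - l.re|))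
      atTop (𝓝 0) := by
    have h1 := (u2_exp_top.comp (tendsto_atTop_add_const_right atTop (-l.re) tendsto_id)).const_mul
      (8 * K + M * Real.exp 1)
    simpa [Function.comp_def, sub_eq_add_neg] using h1
  have hbot : Tendsto (fun t : ℝ => (8 * K + M * Real.exp 1) * Real.exp (-|t - l.re|))
      atBot (𝓝 0) := by
    have h1 := (u2_exp_bot.comp (tendsto_atBot_add_const_right atBot (-l.re) tendsto_id)).const_mul
      (8 * K + M * Real.exp 1)
    simpa [Function.comp_def, sub_eq_add_neg] using h1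
  have hdG' : ∀ t y : ℝ, -(Real.pi / 3) ≤ y → y ≤ Real.pi / 3 →
      DifferentiableAt ℂ G (t + y * I) := by
    intro t y h1 h2
    refine hdG _ ?_
    simpa [abs_le] using ⟨h1, h2⟩
  have hmain := u2_strip G (-(Real.pi / 3)) (Real.pi / 3) (by linarith) _ hBi htop hbot hdG' hBd
  have hi1 := a1_line_int G (-(Real.pi / 3)) _ hBi (fun t => hdG' t _ le_rfl (by linarith))
    (fun t => hBd t _ le_rfl (by linarith))
  have hi2 := a1_line_int G (Real.pi / 3) _ hBi (fun t => hdG' t _ (by linarith) le_rfl)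
    (fun t => hBd t _ (by linarith) le_rfl)
  have hpt : ∀ u : ℝ, kc (l - u) * (h (u + Real.pi / 3 * I) + h (u - Real.pi / 3 * I))
      = (3 / (4 * Real.pi)) * (-I) * (G (u + ((Real.pi / 3 : ℝ) : ℂ) * I)
        - G (u + ((-(Real.pi / 3) : ℝ) : ℂ) * I)) := by
    intro u
    have hl2 := abs_lt.mp hlim
    have hne1 : (u : ℂ) + ((Real.pi / 3 : ℝ) : ℂ) * I ≠ l := by
      intro hh
      have := congrArg Complex.im hh
      rw [add_im, ofReal_im, im_ofReal_mul, I_im, mul_one, zero_add] at this
      linarith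
    have hne2 : (u : ℂ) + ((-(Real.pi / 3) : ℝ) : ℂ) * I ≠ l := by
      intro hh
      have := congrArg Complex.im hh
      rw [add_im, ofReal_im, im_ofReal_mul, I_im, mul_one, zero_add] at this
      linarith
    have him1 : |((u : ℂ) + ((Real.pi / 3 : ℝ) : ℂ) * I).im| ≤ Real.pi / 3 := by
      simp [abs_of_pos (show 0 < Real.pi / 3 by positivity)]
    have him2 : |((u : ℂ) + ((-(Real.pi / 3) : ℝ) : ℂ) * I).im| ≤ Real.pi / 3 := by
      simp [abs_of_pos (show 0 < Real.pi / 3 by positivity)]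
    rw [hGne _ him1 hne1, hGne _ him2 hne2]
    have hc : (Complex.cosh (3 * (l - u) / 2)) ≠ 0 := by
      have := st_cosh_ne (l - u) (by simpa using hlim)
      exact this
    have hs1 : s (u + ((Real.pi / 3 : ℝ) : ℂ) * I) = -I * Complex.cosh (3 * (l - u) / 2) := by
      simp only [hs]
      have : 3 * ((l : ℂ) - (u + ((Real.pi / 3 : ℝ) : ℂ) * I)) / 2
          = 3 * (l - u) / 2 - (Real.pi / 2 : ℂ) * I := by
        push_cast; ring
      rw [this, Complex.sinh_sub, Complex.sinh_mul_I, Complex.cosh_mul_I, Complex.cos_pi_div_two,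
        Complex.sin_pi_div_two]
      ring
    have hs2 : s (u + ((-(Real.pi / 3) : ℝ) : ℂ) * I) = I * Complex.cosh (3 * (l - u) / 2) := by
      simp only [hs]
      have : 3 * ((l : ℂ) - (u + ((-(Real.pi / 3) : ℝ) : ℂ) * I)) / 2
          = 3 * (l - u) / 2 + (Real.pi / 2 : ℂ) * I := by
        push_cast; ring
      rw [this, Complex.sinh_add, Complex.sinh_mul_I, Complex.cosh_mul_I, Complex.cos_pi_div_two,
        Complex.sin_pi_div_two]
      ring
    rw [hs1, hs2]
    have he1 : (u : ℂ) + Real.pi / 3 * I = u + ((Real.pi / 3 : ℝ) : ℂ) * I := by push_cast; ring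
    have he2 : (u : ℂ) - Real.pi / 3 * I = u + ((-(Real.pi / 3) : ℝ) : ℂ) * I := by
      push_cast; ring
    unfold kc
    rw [he1, he2]
    have hpi' : (Real.pi : ℂ) ≠ 0 := by exact_mod_cast hpi.ne'
    have hI := Complex.I_ne_zero
    field_simp
    ring
  simp_rw [hpt]
  rw [integral_const_mul, integral_sub hi2 hi1, hmain, sub_self, mul_zero]

theorem st_im1 (u : ℝ) : |((u : ℂ) + Real.pi / 3 * I).im| ≤ Real.pi / 3 := by
  have : ((u : ℂ) + Real.pi / 3 * I) = u + ((Real.pi / 3 : ℝ) : ℂ) * I := by push_cast; ring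
  rw [this]
  have hpi := Real.pi_pos
  simp [abs_of_pos (show 0 < Real.pi / 3 by positivity)]

theorem st_im2 (u : ℝ) : |((u : ℂ) - Real.pi / 3 * I).im| ≤ Real.pi / 3 := by
  have : ((u : ℂ) - Real.pi / 3 * I) = u + ((-(Real.pi / 3) : ℝ) : ℂ) * I := by push_cast; ring
  rw [this]
  have hpi := Real.pi_pos
  simp [abs_of_pos (show 0 < Real.pi / 3 by positivity)]

theorem st_rep (f : ℂ → ℂ) (K : ℝ)
    (hf : ∀ z : ℂ, |z.im| ≤ Real.pi / 3 → DifferentiableAt ℂ f z)
    (hb : ∀ z : ℂ, |z.im| ≤ Real.pi / 3 → ‖f z‖ ≤ K) (l : ℂ) (hl : |l.im| < Real.pi / 3) :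
    f l = ∫ u : ℝ, kc (l - u) * (f (u + Real.pi / 3 * Complex.I)
      + f (u - Real.pi / 3 * Complex.I)) := by
  have hpi := Real.pi_pos
  have h0 := st_zero (fun z => f z - f l) (K + ‖f l‖)
    (fun z hz => (hf z hz).sub_const _)
    (fun z hz => (norm_sub_le _ _).trans (by have := hb z hz; linarith)) l hl (by simp)
  have hcont : Continuous (fun u : ℝ => (f (u + Real.pi / 3 * Complex.I)
      + f (u - Real.pi / 3 * Complex.I))) := by
    refine Continuous.add ?_ ?_
    · rw [continuous_iff_continuousAt]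
      intro u
      refine ContinuousAt.comp (f := fun t : ℝ => ((t : ℂ) + Real.pi / 3 * I))
        (hf _ (st_im1 u)).continuousAt ?_
      fun_prop
    · rw [continuous_iff_continuousAt]
      intro u
      refine ContinuousAt.comp (f := fun t : ℝ => ((t : ℂ) - Real.pi / 3 * I))
        (hf _ (st_im2 u)).continuousAt ?_
      fun_prop
  have hi : Integrable (fun u : ℝ => kc (l - u) * (f (u + Real.pi / 3 * Complex.I)
      + f (u - Real.pi / 3 * Complex.I))) := by
    refine st_kc_int l hl _ hcont (2 * K) fun u => ?_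
    have h1 := hb _ (st_im1 u)
    have h2 := hb _ (st_im2 u)
    exact (norm_add_le _ _).trans (by linarith)
  have hi2 : Integrable (fun u : ℝ => kc (l - u) * (2 * f l)) :=
    st_kc_int l hl _ continuous_const (‖2 * f l‖) fun u => le_rfl
  have h1 : ∀ u : ℝ, kc (l - u) * ((fun z => f z - f l) (u + Real.pi / 3 * I)
      + (fun z => f z - f l) (u - Real.pi / 3 * I))
      = kc (l - u) * (f (u + Real.pi / 3 * Complex.I) + f (u - Real.pi / 3 * Complex.I))
        - kc (l - u) * (2 * f l) := by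
    intro u
    ring
  simp_rw [h1] at h0
  rw [integral_sub hi hi2, integral_mul_const, st_kc_integral l hl, sub_eq_zero] at h0
  rw [h0]
  ring

/-- A continuous function whose values are integer multiples of `2πi` on a preconnected set is
constant. -/
theorem st_eq_of_exp_eq_one {X : Type*} [TopologicalSpace X] {S : Set X} (hS : IsPreconnected S)
    {u : X → ℂ} (hu : ContinuousOn u S) (h1 : ∀ x ∈ S, exp (u x) = 1) {x y : X} (hx : x ∈ S)
    (hy : y ∈ S) : u x = u y := by
  have hd : IsDiscrete ((AddSubgroup.zmultiples (2 * Real.pi * I) : AddSubgroup ℂ) : Set ℂ) :=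
    ⟨NormedSpace.discreteTopology_zmultiples _⟩
  have hm : MapsTo u S ((AddSubgroup.zmultiples (2 * Real.pi * I) : AddSubgroup ℂ) : Set ℂ) := by
    intro z hz
    obtain ⟨n, hn⟩ := exp_eq_one_iff.mp (h1 z hz)
    rw [SetLike.mem_coe, AddSubgroup.mem_zmultiples_iff]
    exact ⟨n, by rw [hn]; simp⟩
  exact hS.constant_of_mapsTo hd hu hm hx hy

/-- an unbounded part of the strip -/
theorem st_bd_part (F f : ℂ → ℂ) (L : ℝ) (hL : 0 < L) (S : Set ℂ) (hS : Convex ℝ S) (x0 : ℝ)
    (hx0 : (x0 : ℂ) ∈ S) (hFc : ContinuousOn F S) (hfc : ContinuousOn f S)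
    (hF : ∀ z ∈ S, ‖F z - L‖ ≤ L / 2) (he : ∀ z ∈ S, exp (f z) = F z)
    (hf0 : f x0 = ((Real.log (F x0).re : ℝ) : ℂ)) (hF0 : F x0 = (((F x0).re : ℝ) : ℂ)) :
    ∀ z ∈ S, ‖f z‖ ≤ |Real.log (L / 2)| + |Real.log (3 * L / 2)| + Real.pi := by
  have hre : ∀ z ∈ S, 0 < (F z).re := by
    intro z hz
    have h1 := (abs_re_le_norm _).trans (hF z hz)
    rw [sub_re, ofReal_re] at h1
    have := (abs_le.mp h1).1
    linarith
  have hslit : ∀ z ∈ S, F z ∈ slitPlane := fun z hz => Or.inl (hre z hz)
  have hlogc : ContinuousOn (fun z => log (F z)) S := fun z hz => (hFc z hz).clog (hslit z hz)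
  have hzero : f x0 - log (F x0) = 0 := by
    rw [hf0]
    conv_lhs => rw [hF0]
    rw [ofReal_re, ofReal_log (hre _ hx0).le, sub_self]
  have heq : ∀ z ∈ S, f z = log (F z) := by
    intro z hz
    have h1 := st_eq_of_exp_eq_one (u := fun z => f z - log (F z)) hS.isPreconnected
      (hfc.sub hlogc) (by
        intro w hw
        have hne : F w ≠ 0 := slitPlane_ne_zero (hslit w hw)
        rw [exp_sub, he w hw, exp_log hne, div_self hne]) hz hx0
    rw [hzero] at h1
    exact sub_eq_zero.mp h1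
  intro z hz
  rw [heq z hz]
  have h2 : ‖log (F z)‖ ≤ |(log (F z)).re| + |(log (F z)).im| := norm_le_abs_re_add_abs_im _
  rw [log_re, log_im] at h2
  have h3 := abs_arg_le_pi (F z)
  have h4 : L / 2 ≤ ‖F z‖ := by
    have h5 := norm_sub_norm_le (L : ℂ) ((L : ℂ) - F z)
    have h6 : ‖(L : ℂ)‖ = L := by rw [norm_real, Real.norm_of_nonneg hL.le]
    rw [h6, sub_sub_cancel, norm_sub_rev (L : ℂ) (F z)] at h5
    have := hF z hz
    linarith
  have h5 : ‖F z‖ ≤ 3 * L / 2 := by
    have h5 := norm_add_le (F z - L) (L : ℂ)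
    have h6 : ‖(L : ℂ)‖ = L := by rw [norm_real, Real.norm_of_nonneg hL.le]
    rw [h6, sub_add_cancel] at h5
    have := hF z hz
    linarith
  have h6 : |Real.log ‖F z‖| ≤ |Real.log (L / 2)| + |Real.log (3 * L / 2)| := by
    have h7 := Real.log_le_log (by positivity) h4
    have h8 := Real.log_le_log (lt_of_lt_of_le (by positivity) h4) h5
    rw [abs_le]
    constructor
    · have := neg_abs_le (Real.log (L / 2))
      have := abs_nonneg (Real.log (3 * L / 2))
      linarith
    · have := le_abs_self (Real.log (3 * L / 2))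
      have := abs_nonneg (Real.log (L / 2))
      linarith
  linarith

theorem cl_strip : S_strip := by
  intro F L hF z hz
  have hpi := Real.pi_pos
  obtain ⟨a, ha, han⟩ := hF.an
  set U : Set ℂ := {z : ℂ | |z.im| < a} with hU
  have hUo : IsOpen U := isOpen_lt (by fun_prop) continuous_const
  have hUc : Convex ℝ U := by
    have h1 : U = Complex.imLm ⁻¹' (Ioo (-a) a) := by
      ext z
      simp [hU, abs_lt]
    rw [h1]
    exact (convex_Ioo _ _).linear_preimage _
  have hUR : ∀ t : ℝ, (t : ℂ) ∈ U := by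
    intro t
    simp only [hU, mem_ofPred_eq, ofReal_im, abs_zero]
    linarith
  have hFd : DifferentiableOn ℂ F U := fun z hz => (han z hz).1.differentiableWithinAt
  have hFne : ∀ z ∈ U, F z ≠ 0 := fun z hz => (han z hz).2
  have hreal : ∀ t : ℝ, F t = (((F t).re : ℝ) : ℂ) := by
    intro t
    have h1 := hF.conj t (by simp; positivity)
    rw [conj_ofReal] at h1
    exact (conj_eq_iff_re.mp h1.symm).symm
  obtain ⟨f, hfd, hfe, hfr⟩ := Pool.Agent.Helper242.RK.exists_log_real hUc hUo hUR hFd hFne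
    (fun t => (F t).re) hreal hF.pos
  have hsub : ∀ z : ℂ, |z.im| ≤ Real.pi / 3 → z ∈ U := fun z hz => lt_of_le_of_lt hz ha
  have hfda : ∀ z : ℂ, |z.im| ≤ Real.pi / 3 → DifferentiableAt ℂ f z := fun z hz =>
    (hfd z (hsub z hz)).differentiableAt (hUo.mem_nhds (hsub z hz))
  have hFda : ∀ z : ℂ, |z.im| ≤ Real.pi / 3 → DifferentiableAt ℂ F z := fun z hz =>
    (han z (hsub z hz)).1
  -- far part
  obtain ⟨R, hR0, hR⟩ : ∃ R : ℝ, 0 < R ∧ ∀ z : ℂ, |z.im| ≤ Real.pi / 3 → R ≤ |z.re| →
      ‖F z - L‖ ≤ L / 2 := by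
    obtain ⟨K, c, hc, hK⟩ := hF.lim
    have hK0 : 0 ≤ K := by
      have h1 := (norm_nonneg _).trans (hK 0 (by simp; positivity))
      simpa using h1
    refine ⟨(2 * K / L + 1) / c, div_pos (by have := hF.L0; positivity) hc, fun z hz hzR => ?_⟩
    refine (hK z hz).trans ?_
    have h2 : 2 * K / L + 1 ≤ c * |z.re| := by
      rw [div_le_iff₀ hc] at hzR
      linarith
    have h3 : Real.exp (-(c * |z.re|)) ≤ 1 / (c * |z.re| + 1) := by
      rw [Real.exp_neg, one_div]
      have hp : 0 < c * |z.re| + 1 := by positivity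
      exact inv_anti₀ hp (Real.add_one_le_exp _)
    have hp : 0 < c * |z.re| + 1 := by positivity
    calc K * Real.exp (-(c * |z.re|)) ≤ K * (1 / (c * |z.re| + 1)) :=
          mul_le_mul_of_nonneg_left h3 hK0
      _ ≤ L / 2 := by
          rw [mul_one_div, div_le_div_iff₀ hp (by norm_num)]
          have h4 : 2 * K / L ≤ c * |z.re| + 1 := by linarith
          rw [div_le_iff₀ hF.L0] at h4
          linarith
  -- convex pieces
  have hbd1 : ∀ z : ℂ, |z.im| ≤ Real.pi / 3 → R ≤ z.re →
      ‖f z‖ ≤ |Real.log (L / 2)| + |Real.log (3 * L / 2)| + Real.pi := by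
    intro z hz hzR
    set S : Set ℂ := {z : ℂ | |z.im| ≤ Real.pi / 3 ∧ R ≤ z.re} with hSdef
    have hSc : Convex ℝ S := by
      have h1 : S = (Complex.imLm ⁻¹' (Icc (-(Real.pi / 3)) (Real.pi / 3))) ∩
          (Complex.reLm ⁻¹' (Ici R)) := by
        ext z
        simp [hSdef, abs_le]
      rw [h1]
      exact ((convex_Icc _ _).linear_preimage _).inter ((convex_Ici _).linear_preimage _)
    refine st_bd_part F f L hF.L0 S hSc R ?_ (fun w hw => (hFda w hw.1).continuousAt.continuousWithinAt)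
      (fun w hw => (hfda w hw.1).continuousAt.continuousWithinAt)
      (fun w hw => hR w hw.1 (hw.2.trans (le_abs_self _))) (fun w hw => hfe w (hsub w hw.1))
      (hfr R) (hreal R) z ⟨hz, hzR⟩
    refine ⟨by simp; positivity, by simp⟩
  have hbd2 : ∀ z : ℂ, |z.im| ≤ Real.pi / 3 → z.re ≤ -R →
      ‖f z‖ ≤ |Real.log (L / 2)| + |Real.log (3 * L / 2)| + Real.pi := by
    intro z hz hzR
    set S : Set ℂ := {z : ℂ | |z.im| ≤ Real.pi / 3 ∧ z.re ≤ -R} with hSdef
    have hSc : Convex ℝ S := by
      have h1 : S = (Complex.imLm ⁻¹' (Icc (-(Real.pi / 3)) (Real.pi / 3))) ∩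
          (Complex.reLm ⁻¹' (Iic (-R))) := by
        ext z
        simp [hSdef, abs_le]
      rw [h1]
      exact ((convex_Icc _ _).linear_preimage _).inter ((convex_Iic _).linear_preimage _)
    refine st_bd_part F f L hF.L0 S hSc (-R) ?_
      (fun w hw => (hFda w hw.1).continuousAt.continuousWithinAt)
      (fun w hw => (hfda w hw.1).continuousAt.continuousWithinAt)
      (fun w hw => hR w hw.1 ?_) (fun w hw => hfe w (hsub w hw.1))
      (hfr (-R)) (hreal (-R)) z ⟨hz, hzR⟩
    · refine ⟨by simp; positivity, by simp⟩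
    · rw [abs_of_nonpos (by linarith [hw.2])]
      linarith [hw.2]
  obtain ⟨M, hM⟩ : ∃ M, ∀ w ∈ (Icc (-R) R) ×ℂ (Icc (-(Real.pi / 3)) (Real.pi / 3)),
      ‖f w‖ ≤ M := by
    have hc : IsCompact ((Icc (-R) R) ×ℂ (Icc (-(Real.pi / 3)) (Real.pi / 3))) :=
      isCompact_Icc.reProdIm isCompact_Icc
    refine hc.exists_bound_of_continuousOn ?_
    intro w hw
    rw [mem_reProdIm] at hw
    exact (hfda w (abs_le.mpr hw.2)).continuousAt.continuousWithinAt
  have hbd : ∀ z : ℂ, |z.im| ≤ Real.pi / 3 →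
      ‖f z‖ ≤ max M (|Real.log (L / 2)| + |Real.log (3 * L / 2)| + Real.pi) := by
    intro z hz
    rcases le_total R z.re with h | h
    · exact (hbd1 z hz h).trans (le_max_right _ _)
    · rcases le_total z.re (-R) with h' | h'
      · exact (hbd2 z hz h').trans (le_max_right _ _)
      · refine (hM z ?_).trans (le_max_left _ _)
        rw [mem_reProdIm]
        exact ⟨⟨h', h⟩, abs_le.mp hz⟩
  -- conjugation
  have hconj : ∀ z : ℂ, |z.im| ≤ Real.pi / 3 → f (starRingEnd ℂ z) = starRingEnd ℂ (f z) := by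
    intro z hz
    set S : Set ℂ := {z : ℂ | |z.im| ≤ Real.pi / 3} with hSdef
    have hSc : Convex ℝ S := by
      have h1 : S = (Complex.imLm ⁻¹' (Icc (-(Real.pi / 3)) (Real.pi / 3))) := by
        ext z
        simp [hSdef, abs_le]
      rw [h1]
      exact ((convex_Icc _ _).linear_preimage _)
    have hcS : ∀ w ∈ S, starRingEnd ℂ w ∈ S := by
      intro w hw
      simp only [hSdef, mem_ofPred_eq, conj_im, abs_neg] at hw ⊢
      exact hw
    have h1 := st_eq_of_exp_eq_one (u := fun z => f (starRingEnd ℂ z) - starRingEnd ℂ (f z))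
      hSc.isPreconnected (by
        refine ContinuousOn.sub ?_ ?_
        · refine ContinuousOn.comp (t := S) (fun w hw => (hfda w hw).continuousAt.continuousWithinAt)
            continuous_conj.continuousOn hcS
        · exact continuous_conj.comp_continuousOn
            (fun w hw => (hfda w hw).continuousAt.continuousWithinAt)) (by
        intro w hw
        have h2 := hfe w (hsub w hw)
        have h3 := hfe _ (hsub _ (hcS w hw))
        rw [exp_sub, h3, exp_conj, h2, hF.conj w hw]
        refine div_self ?_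
        have := hFne w (hsub w hw)
        simpa using this) hz (show (0 : ℂ) ∈ S by simp [hSdef]; positivity)
    have h4 : f 0 = ((Real.log (F 0).re : ℝ) : ℂ) := by
      have := hfr 0
      simpa using this
    rw [map_zero, h4, conj_ofReal, sub_self] at h1
    exact sub_eq_zero.mp h1
  have hsum : ∀ u : ℝ, f (u + Real.pi / 3 * I) + f (u - Real.pi / 3 * I)
      = ((Real.log (‖F (u + Real.pi / 3 * I)‖ ^ 2) : ℝ) : ℂ) := by
    intro u
    have h1 := hconj (u + Real.pi / 3 * I) (st_im1 u)
    have h2 : starRingEnd ℂ ((u : ℂ) + Real.pi / 3 * I) = u - Real.pi / 3 * I := by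
      rw [map_add, map_mul, conj_ofReal, conj_I, map_div₀, conj_ofReal]
      have : starRingEnd ℂ (3 : ℂ) = 3 := by
        have := conj_ofReal 3
        simpa using this
      rw [this]
      ring
    rw [h2] at h1
    rw [h1, add_conj, Real.log_pow, ← hfe _ (hsub _ (st_im1 u)), norm_exp, Real.log_exp]
    push_cast
    ring
  have hrep := st_rep f _ hfda hbd z hz
  simp_rw [hsum] at hrep
  refine ⟨?_, ?_⟩
  · have hcont : Continuous (fun u : ℝ => ((Real.log (‖F (u + Real.pi / 3 * I)‖ ^ 2) : ℝ) : ℂ)) := by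
      simp_rw [← hsum]
      refine Continuous.add ?_ ?_
      · rw [continuous_iff_continuousAt]
        intro u
        refine ContinuousAt.comp (f := fun t : ℝ => ((t : ℂ) + Real.pi / 3 * I))
          (hfda _ (st_im1 u)).continuousAt ?_
        fun_prop
      · rw [continuous_iff_continuousAt]
        intro u
        refine ContinuousAt.comp (f := fun t : ℝ => ((t : ℂ) - Real.pi / 3 * I))
          (hfda _ (st_im2 u)).continuousAt ?_
        fun_prop
    refine st_kc_int z hz _ hcont
      (2 * max M (|Real.log (L / 2)| + |Real.log (3 * L / 2)| + Real.pi)) fun u => ?_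
    rw [← hsum]
    have h1 := hbd _ (st_im1 u)
    have h2 := hbd _ (st_im2 u)
    exact (norm_add_le _ _).trans (by linarith)
  · rw [← hrep]
    exact (hfe z (hsub z hz.le)).symm

end W96CL
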